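import Pool.Agent.H480Z.SDP.Tsp

set_option autoImplicit false

/-!
# Semidefinite extended formulations of the travelling salesman polytope need size `2 ^ Ω(N)`

Every projected spectrahedron which contains the incidence vectors of all Hamiltonian cycles of the
complete graph on `N` vertices and approximates the metric travelling salesman problem with
distances in `[1, 2]` within the factor `1 + ε` has order `2 ^ Ω(N)`.  No symmetry is assumed.
-/

namespace Pool.Agent.Results.MP_6b3410_lc.ATourPolytopeSDP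

open Pool.Agent.H480Z.SDP

theorem result : ∃ ε : ℝ, 0 < ε ∧ ∃ c : ℝ, 0 < c ∧ ∃ N₀ : ℕ, ∀ N ≥ N₀,
    ∀ (r : ℕ) (K : Set (Sym2 (Fin N) → ℝ)), IsShadow r K →
      (∀ f : Equiv.Perm (Fin N), f.IsCycleOn Set.univ → tourVec f ∈ K) →
      (∀ w : Sym2 (Fin N) → ℝ, (∀ e, 1 ≤ w e ∧ w e ≤ 2) → ∀ p ∈ K,
        ∃ f : Equiv.Perm (Fin N), f.IsCycleOn Set.univ ∧
          ∑ e, w e * tourVec f e ≤ (1 + ε) * ∑ e, w e * p e) →
      (2 : ℝ) ^ (c * N) ≤ r :=
  tsp_main

end Pool.Agent.Results.MP_6b3410_lc.ATourPolytopeSDP
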